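import Pool.Agent.Gab7b_h87.CA2.A0
import Pool.Agent.Gab7b_h87.CA2.T0

/-! Certificate; see `Pool/Agent/Gab7b_h87/Ax.lean`. -/

set_option autoImplicit false
set_option maxRecDepth 100000

namespace Pool.Agent.Gab7b_h87.CA2

open Pool.Agent.Gab7b_h87.Sat

theorem z : Tr.get 0 g 1255 = 0 := by decide +kernel

/-- The problem with these parameters has no solution. -/
theorem bad {α : Type*} [DecidableEq α] (c : Cx α)
    (hp : c.toPar = ⟨7, 127, 55, [(3, 3), (4, 2), (5, 1), (6, 0)], [], [], [0, 1, 2]⟩) : False := by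
  have s0 := axchk_sound c hp _ _ _ _ _ a0
  have s0 := chk_sound' t0 (e := 1256) rfl s0
  exact s0.false z

end Pool.Agent.Gab7b_h87.CA2
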