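import Pool.Agent.Gab7b_h87.Ax

/-! Certificate; see `Pool/Agent/Gab7b_h87/Ax.lean`. -/

set_option autoImplicit false
set_option maxRecDepth 100000

namespace Pool.Agent.Gab7b_h87.CA2

open Pool.Agent.Gab7b_h87.Sat

/-- clauses -/
def g_0 : Tr Nat := (.node (.node (.node (.node (.node (.node (.node (.node (.node (.node (.node (.leaf 299)
(.leaf 531))
(.leaf 312178168913275375319167896273810))
(.node (.leaf 1895588385521926)
(.leaf 8766510)))
(.node (.node (.node (.leaf 892851495272612)
(.leaf 263))
(.leaf 2572967544127944))
(.node (.leaf 10240902)
(.leaf 884))))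
(.node (.node (.node (.node (.leaf 1288705747190060)
(.leaf 2670138201648555684947902724))
(.leaf 302671137645955398660250425967690))
(.node (.leaf 1895590534611206)
(.leaf 50737234096)))
(.node (.node (.node (.leaf 2520232863105648)
(.leaf 940))
(.leaf 3716383133074146))
(.node (.leaf 2493808077635990)
(.leaf 822)))))
(.node (.node (.node (.node (.node (.leaf 3575662286504670)
(.leaf 7078870))
(.leaf 2141956832788878))
(.node (.leaf 1675689282994256)
(.leaf 151669621140)))
(.node (.node (.node (.leaf 1473434975764796)
(.leaf 139))
(.leaf 2150758831325802))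
(.node (.leaf 2616992568214124)
(.leaf 76508741914))))
(.node (.node (.node (.node (.leaf 391434462691344)
(.leaf 420316414223043712647576))
(.leaf 3821912091984642))
(.node (.leaf 11338604)
(.leaf 20670595210)))
(.node (.node (.node (.leaf 2476208368845288)
(.leaf 273))
(.leaf 2379461552701802))
(.node (.leaf 3698808125653728)
(.leaf 1113))))))
(.node (.node (.node (.node (.node (.node (.leaf 285889935507536)
(.leaf 1565774088618910))
(.leaf 2049058))
(.node (.leaf 2564213322613360)
(.leaf 3857196315476832)))
(.node (.node (.node (.leaf 2687285080621312)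
(.leaf 920))
(.leaf 822455370580004))
(.node (.leaf 8733740)
(.leaf 152207179998))))
(.node (.node (.node (.node (.leaf 3100659842613930)
(.leaf 312682024639321914018527715298389071056507789220513464025686311366))
(.leaf 7619600))
(.node (.leaf 963229366255914)
(.leaf 233280570156)))
(.node (.node (.node (.leaf 541772)
(.leaf 941))
(.leaf 3839591245218646))
(.node (.leaf 2388212548567238)
(.leaf 1170)))))
(.node (.node (.node (.node (.node (.leaf 18219836)
(.leaf 2642119598223073913393264465657255021658578837099573789128))
(.leaf 1596502431301670))
(.node (.leaf 18285284)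
(.leaf 198383960758)))
(.node (.node (.node (.leaf 3039130674758290)
(.leaf 1084))
(.leaf 3241399478321844))
(.node (.leaf 2458564646076710)
(.leaf 108717687006))))
(.node (.node (.node (.node (.leaf 1939635423674910)
(.leaf 1012))
(.leaf 681709291995140))
(.node (.leaf 1596587793678778)
(.leaf 19059884424)))
(.node (.node (.leaf 5587914)
(.leaf 5882838))
(.node (.leaf 1721386)
(.leaf 792)))))))
(.node (.node (.node (.node (.node (.node (.node (.leaf 1447045080809794)
(.leaf 534))
(.leaf 2784125318529604))
(.node (.leaf 1570195215286670)
(.leaf 1781230585217246)))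
(.node (.node (.node (.leaf 305223205654)
(.leaf 956))
(.leaf 2458657527333520))
(.node (.leaf 19006180)
(.leaf 880))))
(.node (.node (.node (.node (.leaf 11076474)
(.leaf 4099075988177155))
(.leaf 3821912091984654))
(.node (.leaf 2977642844914322)
(.leaf 94759272874)))
(.node (.node (.node (.leaf 2713758184637070)
(.leaf 104704459712))
(.leaf 2740098682257854))
(.node (.leaf 18252536)
(.leaf 770)))))
(.node (.node (.node (.node (.node (.leaf 989619791659578)
(.leaf 61085934402469554814359058093872074916465))
(.leaf 3786863539651300))
(.node (.leaf 1147943025672724)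
(.leaf 20670661008)))
(.node (.node (.node (.leaf 2836912614179472)
(.leaf 1045))
(.leaf 3982264))
(.node (.leaf 1297462111961228)
(.leaf 7979305))))
(.node (.node (.node (.node (.leaf 1816502467330458)
(.leaf 932))
(.leaf 1447045080809792))
(.node (.leaf 1819538)
(.leaf 165097030162)))
(.node (.node (.leaf 18219842)
(.leaf 664116032274434))
(.node (.leaf 1288662797484174)
(.leaf 1162))))))
(.node (.node (.node (.node (.node (.node (.leaf 6603684)
(.leaf 1054))
(.leaf 2388282339820140))
(.node (.leaf 1913265935123054)
(.leaf 2045214847271356)))
(.node (.node (.node (.leaf 3206291336987310)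
(.leaf 2310294))
(.leaf 2476205690028436))
(.node (.leaf 3698808125653706)
(.leaf 167242351038))))
(.node (.node (.node (.node (.leaf 4473798)
(.leaf 4099030356935704))
(.leaf 9716804))
(.node (.leaf 382651789771162)
(.leaf 2441363)))
(.node (.node (.node (.leaf 3399707679326912)
(.leaf 150))
(.leaf 3390919101907646))
(.node (.leaf 491)
(.leaf 1160)))))
(.node (.node (.node (.node (.node (.leaf 2177115440873774)
(.leaf 37048893581))
(.leaf 311665558334))
(.node (.leaf 3874708512834400)
(.leaf 79730131082)))
(.node (.node (.node (.leaf 1570130797133904)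
(.leaf 990))
(.leaf 6636508))
(.node (.leaf 17056482)
(.leaf 659))))
(.node (.node (.node (.node (.leaf 461820385624322)
(.leaf 361))
(.leaf 3100659842613916))
(.node (.leaf 302001488626)
(.leaf 58790855220)))
(.node (.node (.leaf 3707588113728226)
(.leaf 6702048))
(.node (.leaf 3135875351020196)
(.leaf 762))))))))
(.node (.node (.node (.node (.node (.node (.node (.node (.leaf 19071716)
(.leaf 78))
(.leaf 3258966969942716))
(.node (.leaf 2185910996926768)
(.leaf 5981146)))
(.node (.node (.node (.leaf 5)
(.leaf 685))
(.leaf 5784512))
(.node (.leaf 3382143945310906)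
(.leaf 852))))
(.node (.node (.node (.node (.leaf 1746041919504464)
(.leaf 162931733912474697400614))
(.leaf 1939647771705764))
(.node (.leaf 1754841234079886)
(.leaf 6174359564)))
(.node (.node (.node (.leaf 10339204)
(.leaf 742))
(.leaf 3197522086134446))
(.node (.leaf 1786768)
(.leaf 774)))))
(.node (.node (.node (.node (.node (.leaf 309518172976)
(.leaf 69796299112))
(.leaf 3373394557174468))
(.node (.leaf 2713664229179692)
(.leaf 102279758160)))
(.node (.node (.node (.leaf 11338600)
(.leaf 8913946))
(.leaf 5653446))
(.node (.leaf 3813227123901156)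
(.leaf 9323063))))
(.node (.node (.node (.node (.leaf 3012827753841298)
(.leaf 4099017470443740))
(.leaf 302538457844))
(.node (.leaf 453019462565924)
(.leaf 154896548334)))
(.node (.node (.node (.leaf 1950758)
(.leaf 664))
(.leaf 1253519227519624))
(.node (.leaf 3593237293925090)
(.leaf 1158))))))
(.node (.node (.node (.node (.node (.node (.leaf 18318052)
(.leaf 14124052))
(.leaf 343870014201012044994900125041638))
(.node (.leaf 312739332934)
(.leaf 2898486597091986)))
(.node (.node (.node (.leaf 2960015764095634)
(.leaf 11600850))
(.leaf 340701700159986764022871507649554))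
(.node (.leaf 11338616)
(.leaf 132343677426))))
(.node (.node (.node (.node (.leaf 6800360)
(.leaf 1100325083021878471409961))
(.leaf 3135875351020190))
(.node (.leaf 312202429248)
(.leaf 69528961128)))
(.node (.node (.node (.leaf 972008279605740)
(.leaf 563))
(.leaf 311544266241908372910198246261648))
(.node (.leaf 2397081117721210)
(.leaf 1116)))))
(.node (.node (.node (.node (.node (.leaf 3399707679326914)
(.leaf 115710656877))
(.leaf 3821912091984640))
(.node (.leaf 3760473113232100)
(.leaf 233280570186)))
(.node (.node (.node (.leaf 1007192651563508)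
(.leaf 928))
(.leaf 18940644))
(.node (.leaf 5915608)
(.leaf 178517508250))))
(.node (.node (.node (.node (.leaf 1570197362770322)
(.leaf 364))
(.leaf 3320570220479178))
(.node (.leaf 928043917934886)
(.leaf 78655111728)))
(.node (.node (.leaf 9683848)
(.leaf 509008))
(.node (.leaf 3109560082236072)
(.leaf 848)))))))
(.node (.node (.node (.node (.node (.node (.node (.leaf 2141885969957010)
(.leaf 1180224))
(.leaf 3064822))
(.node (.leaf 3916724)
(.leaf 752083405209636)))
(.node (.node (.node (.leaf 1623088)
(.leaf 938))
(.leaf 3171029660467892))
(.node (.leaf 2080402440520162)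
(.leaf 73287188710))))
(.node (.node (.node (.node (.leaf 2212315919614262)
(.leaf 708099181707275))
(.leaf 1930858119954888))
(.node (.leaf 309008655509214680674649720669258)
(.leaf 79190802572)))
(.node (.node (.node (.leaf 18219828)
(.leaf 904))
(.leaf 3162302819369648))
(.node (.leaf 3566911287853788)
(.leaf 1138)))))
(.node (.node (.node (.node (.node (.leaf 1895588387029254)
(.leaf 11928472))
(.leaf 2704949744239122))
(.node (.leaf 1229880)
(.leaf 68453351528)))
(.node (.node (.node (.leaf 3628528496870104)
(.leaf 501))
(.leaf 2493755999322334))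
(.node (.leaf 5489614)
(.leaf 109259145662))))
(.node (.node (.node (.node (.leaf 1367875416490298)
(.leaf 190))
(.leaf 646534584041774))
(.node (.leaf 787275831050276)
(.leaf 18473580178586144937759425413)))
(.node (.node (.leaf 2177142822437166)
(.leaf 3399707679326924))
(.node (.leaf 2493756000796934)
(.leaf 844))))))
(.node (.node (.node (.node (.node (.node (.leaf 3883608215618398)
(.leaf 1064))
(.leaf 2493808077635992))
(.node (.leaf 461819848753292)
(.leaf 2326636136202428)))
(.node (.node (.node (.leaf 312194)
(.leaf 69))
(.leaf 18481892))
(.node (.leaf 1561327187525668)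
(.leaf 11006460266))))
(.node (.node (.node (.node (.leaf 2484955072758060)
(.leaf 250184958309))
(.leaf 308981203752))
(.node (.leaf 3637322979377880)
(.leaf 145232314864)))
(.node (.node (.node (.leaf 293796074575061476225772365857680)
(.leaf 230))
(.leaf 1279909117231760))
(.node (.leaf 2141885971398802)
(.leaf 1152)))))
(.node (.node (.node (.node (.node (.leaf 79)
(.leaf 1080))
(.leaf 5718980))
(.node (.leaf 1746120297677146)
(.leaf 28187279788)))
(.node (.node (.node (.leaf 2995200673022610)
(.leaf 396))
(.leaf 3329337861472974))
(.node (.leaf 3003945765831314)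
(.leaf 739))))
(.node (.node (.node (.node (.leaf 1306256057335954)
(.leaf 356))
(.leaf 1939654213010028))
(.node (.leaf 2696070432424232)
(.leaf 691)))
(.node (.node (.leaf 635)
(.leaf 2801703546126884))
(.node (.leaf 9421706)
(.leaf 764)))))))))
(.node (.node (.node (.node (.node (.node (.node (.node (.node (.leaf 1895586774778118)
(.leaf 796))
(.leaf 145))
(.node (.leaf 19202788)
(.leaf 1790101842526510)))
(.node (.node (.node (.leaf 2868222)
(.leaf 404))
(.leaf 8143896))
(.node (.leaf 3733969950802658)
(.leaf 888))))
(.node (.node (.node (.node (.leaf 8799280)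
(.leaf 7111644))
(.leaf 3188652982829748))
(.node (.leaf 2900988)
(.leaf 27650113682)))
(.node (.node (.node (.leaf 2476205153124840)
(.leaf 1051))
(.leaf 1570197362770272))
(.node (.leaf 3197522086134448)
(.leaf 836)))))
(.node (.node (.node (.node (.node (.leaf 18645732)
(.leaf 10307389480458027148))
(.leaf 1992430771208816))
(.node (.leaf 3821912091984714)
(.leaf 17449336856)))
(.node (.node (.node (.leaf 285889935048784)
(.leaf 93))
(.leaf 1288665481347210))
(.node (.leaf 171533746077888)
(.leaf 40534425798))))
(.node (.node (.node (.node (.leaf 2467434294673806)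
(.leaf 2343053))
(.leaf 3443718743818966))
(.node (.leaf 101160170192932)
(.leaf 20670693444)))
(.node (.node (.node (.leaf 2493834921181676)
(.leaf 87))
(.leaf 3458020))
(.node (.leaf 655331213934594)
(.leaf 1156))))))
(.node (.node (.node (.node (.node (.node (.leaf 963192858542226)
(.leaf 908))
(.leaf 3821912091984686))
(.node (.leaf 3672464940958426)
(.leaf 1790086809583918)))
(.node (.node (.node (.leaf 2343956)
(.leaf 37851857601))
(.leaf 1763655045251152))
(.node (.leaf 1552535926767652)
(.leaf 226830025212))))
(.node (.node (.node (.node (.leaf 373856234930588)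
(.leaf 5985420841831387340529783738615680537233612015994384269066548866171213))
(.leaf 2669776645587592))
(.node (.leaf 18776804)
(.leaf 1097)))
(.node (.node (.node (.leaf 3556318)
(.leaf 487))
(.leaf 2344212217266368))
(.node (.leaf 2485046874636944)
(.leaf 1172)))))
(.node (.node (.node (.node (.node (.leaf 2265089787789646)
(.leaf 2642119598223073928536219291325290507574958584603009515975))
(.leaf 3302949045568206))
(.node (.leaf 8831884)
(.leaf 102275957214)))
(.node (.node (.node (.leaf 2150775474389648)
(.leaf 494))
(.leaf 3021609888940690))
(.node (.leaf 2704929343144366)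
(.leaf 45903528150))))
(.node (.node (.node (.node (.leaf 2511436770083438)
(.leaf 258))
(.leaf 476242))
(.node (.leaf 2016292)
(.leaf 14238466)))
(.node (.node (.leaf 3074270489838244)
(.leaf 2802688))
(.node (.leaf 3285432016437956)
(.leaf 820)))))))
(.node (.node (.node (.node (.node (.node (.node (.leaf 972008277213676)
(.leaf 5914983))
(.leaf 2141961664496046))
(.node (.leaf 4506568)
(.leaf 3851184)))
(.node (.node (.node (.leaf 831278841135278)
(.leaf 228))
(.leaf 2493802706928022))
(.node (.leaf 1675689282961488)
(.leaf 106574725464))))
(.node (.node (.node (.node (.leaf 2194707626852656)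
(.leaf 37585830938))
(.leaf 313813140300))
(.node (.leaf 2300274159878482)
(.leaf 82412192244)))
(.node (.node (.node (.leaf 294429977246428478634742015869842)
(.leaf 1088))
(.leaf 3936255932826470))
(.node (.leaf 8078356)
(.leaf 1164)))))
(.node (.node (.node (.node (.node (.leaf 3346959036383946)
(.leaf 11994032))
(.leaf 2907273027060370))
(.node (.leaf 3830830583808856)
(.leaf 19059884168)))
(.node (.node (.node (.leaf 18907876)
(.leaf 96))
(.leaf 1200737299825260))
(.node (.leaf 1737249048035466)
(.leaf 171002413604))))
(.node (.node (.node (.node (.leaf 3821912091984694)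
(.leaf 219))
(.leaf 3540531061392092))
(.node (.leaf 101160707096612)
(.leaf 48051077338)))
(.node (.node (.leaf 18252576)
(.leaf 10175564))
(.node (.leaf 1895656032666132)
(.leaf 790))))))
(.node (.node (.node (.node (.node (.node (.leaf 2458656990429840)
(.leaf 140125209304))
(.leaf 1922062026932678))
(.node (.leaf 2769922)
(.leaf 2458586662043864)))
(.node (.node (.node (.leaf 2835356)
(.leaf 2311192))
(.leaf 3566911287853786))
(.node (.leaf 7554058)
(.leaf 96641024854))))
(.node (.node (.node (.node (.leaf 822482748113152)
(.leaf 1134793444884922))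
(.leaf 10306642))
(.node (.leaf 2353097967600244)
(.leaf 73287155990)))
(.node (.node (.node (.leaf 314350011214)
(.leaf 303))
(.leaf 10912638))
(.node (.leaf 3223837891756724)
(.leaf 1134)))))
(.node (.node (.node (.node (.node (.leaf 3417376095961812)
(.leaf 607063037198480))
(.leaf 18514660))
(.node (.leaf 3461311466701528)
(.leaf 233280570180)))
(.node (.node (.node (.leaf 3621796)
(.leaf 675))
(.leaf 2493762443608286))
(.node (.leaf 2141978307494544)
(.leaf 693))))
(.node (.node (.node (.node (.leaf 3399707679326926)
(.leaf 429))
(.leaf 2942457935987346))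
(.node (.leaf 461819311849726)
(.leaf 106574725462)))
(.node (.node (.leaf 1121539714646120)
(.leaf 2141928386986130))
(.node (.leaf 1306299004551468)
(.leaf 760))))))))
(.node (.node (.node (.node (.node (.node (.node (.node (.leaf 3821912091984656)
(.leaf 1078))
(.leaf 305840496269728791749659916780618))
(.node (.leaf 9618496)
(.leaf 822455370711076)))
(.node (.node (.node (.leaf 1939647771705760)
(.leaf 882))
(.leaf 3127117910442656))
(.node (.leaf 3610817132921570)
(.leaf 50198692052))))
(.node (.node (.node (.node (.leaf 308444332838)
(.leaf 1306256866082956))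
(.leaf 3865980061123422))
(.node (.leaf 3032056)
(.leaf 20670595468)))
(.node (.node (.node (.leaf 341333436306411579546332442510244)
(.leaf 11862980))
(.leaf 3821912091984722))
(.node (.leaf 299853873896)
(.leaf 768)))))
(.node (.node (.node (.node (.node (.leaf 708087906828304)
(.leaf 11928470))
(.leaf 18219818))
(.node (.leaf 2546530409840914)
(.leaf 95833178536)))
(.node (.node (.node (.leaf 1746041919307856)
(.leaf 500))
(.leaf 8635280))
(.node (.leaf 2141978844398224)
(.leaf 92611297678))))
(.node (.node (.node (.node (.leaf 3311820832342724)
(.leaf 15270147))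
(.leaf 1332648097808386))
(.node (.leaf 461819848753576)
(.leaf 50736021764)))
(.node (.node (.node (.leaf 312277141291144)
(.leaf 293))
(.leaf 971990561554838))
(.node (.leaf 655348390199788)
(.leaf 568))))))
(.node (.node (.node (.node (.node (.node (.leaf 752110245576894)
(.leaf 1082))
(.leaf 902210))
(.node (.leaf 3654566)
(.leaf 1895657106571624)))
(.node (.node (.node (.leaf 3065494796468892)
(.leaf 19747866716967371666))
(.leaf 304149234442))
(.node (.leaf 3364522770399950)
(.leaf 14238546))))
(.node (.node (.node (.node (.leaf 304686170900)
(.leaf 504143535594485106508826))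
(.leaf 1895656563966312))
(.node (.leaf 1570197362770270)
(.leaf 106574725460)))
(.node (.node (.node (.leaf 954424146395326)
(.leaf 483))
(.leaf 2757700532240818))
(.node (.leaf 2537733243011338)
(.leaf 1166)))))
(.node (.node (.node (.node (.node (.leaf 2819276404818390)
(.leaf 362399020906313066357459545911102869705802226))
(.leaf 787268851105828))
(.node (.leaf 3390919101907658)
(.leaf 107644961254)))
(.node (.node (.node (.leaf 971997004693910)
(.leaf 934))
(.leaf 2194686690099350))
(.node (.leaf 822455370645540)
(.leaf 3555471))))
(.node (.node (.node (.node (.leaf 2546621140992620)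
(.leaf 255))
(.leaf 6996896))
(.node (.leaf 1895656032633364)
(.leaf 166707380756)))
(.node (.node (.leaf 3100659842613914)
(.leaf 1517343501156388))
(.node (.leaf 3083143887323798)
(.leaf 746)))))))
(.node (.node (.node (.node (.node (.node (.node (.leaf 288726439354948112668713447506940)
(.leaf 15566982441608921530))
(.leaf 1917992))
(.node (.leaf 347040494795314864750330142049354)
(.leaf 2229908642529598)))
(.node (.node (.node (.leaf 804887343366394)
(.leaf 727))
(.leaf 1605383349862932))
(.node (.leaf 3267763599803068)
(.leaf 1041))))
(.node (.node (.node (.node (.leaf 5850044)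
(.leaf 93606347941641409802394558622992017942268168915493736018280562))
(.leaf 377940))
(.node (.leaf 2696132713251244)
(.leaf 39997522120)))
(.node (.node (.node (.leaf 136345616121874)
(.leaf 442))
(.leaf 19038948))
(.node (.leaf 11240306)
(.leaf 1148)))))
(.node (.node (.node (.node (.node (.leaf 3531651758883554)
(.leaf 9843631199000441686744729593930583993511524827688))
(.leaf 1077549585203326))
(.node (.leaf 5555154)
(.leaf 90468204872)))
(.node (.node (.node (.leaf 4277180)
(.leaf 144))
(.leaf 2810428772221210))
(.node (.leaf 655319402414082)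
(.leaf 152206524644))))
(.node (.node (.node (.node (.leaf 1411858029085186)
(.leaf 187))
(.leaf 2133180067021274))
(.node (.leaf 8340516)
(.leaf 10469589352)))
(.node (.node (.leaf 2916055162159762)
(.leaf 6472620))
(.node (.leaf 2493753314803934)
(.leaf 846))))))
(.node (.node (.node (.node (.node (.node (.leaf 301464781552)
(.leaf 1060))
(.leaf 3549325543867100))
(.node (.leaf 1851672882807130)
(.leaf 78656356640)))
(.node (.node (.node (.leaf 3355734192980686)
(.leaf 1044))
(.leaf 3752876))
(.node (.leaf 1350241357725698)
(.leaf 78119452956))))
(.node (.node (.node (.node (.leaf 18416356)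
(.leaf 131540336781))
(.leaf 945600673022094))
(.node (.leaf 2493808077635996)
(.leaf 169929523780)))
(.node (.node (.node (.leaf 2493757074604254)
(.leaf 225))
(.leaf 3672464940958406))
(.node (.leaf 18252542)
(.leaf 1130)))))
(.node (.node (.node (.node (.node (.leaf 2493756000764126)
(.leaf 36029452397693961118))
(.leaf 2643386219070022))
(.node (.leaf 338669714538642)
(.leaf 95837241694)))
(.node (.node (.node (.leaf 3830830583808852)
(.leaf 212))
(.leaf 18973412))
(.node (.leaf 1878034858279056)
(.leaf 786))))
(.node (.node (.node (.node (.leaf 3373394557174456)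
(.leaf 617))
(.leaf 3690027064001246))
(.node (.leaf 18711268)
(.leaf 872)))
(.node (.node (.leaf 3373394557174472)
(.leaf 2537825046495852))
(.node (.leaf 1455761722507280)
(.leaf 818))))))))))
(.node (.node (.node (.node (.node (.node (.node (.node (.node (.node (.leaf 8274976)
(.leaf 569))
(.leaf 1904463936651834))
(.node (.leaf 3206291336987306)
(.leaf 10879868)))
(.node (.node (.node (.leaf 18809572)
(.leaf 37))
(.leaf 840037355061608))
(.node (.leaf 3109560082236070)
(.leaf 874))))
(.node (.node (.node (.node (.leaf 3681231507817182)
(.leaf 195173889354471519435198148033039235104276883))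
(.leaf 1570197362770268))
(.node (.leaf 461821996204178)
(.leaf 6174326794)))
(.node (.node (.node (.leaf 9356344)
(.leaf 133))
(.leaf 298234089767024371774150833980444))
(.node (.leaf 3215080451179186)
(.leaf 842)))))
(.node (.node (.node (.node (.node (.leaf 3584442274579170)
(.leaf 14124054))
(.leaf 3056747018846872))
(.node (.leaf 1570130797199440)
(.leaf 3588313)))
(.node (.node (.node (.leaf 2713758178804320)
(.leaf 497))
(.leaf 74769743839246))
(.node (.leaf 1007211977736762)
(.leaf 13690355758))))
(.node (.node (.node (.node (.leaf 8504360)
(.leaf 6886464130629741222431228046))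
(.leaf 18252556))
(.node (.leaf 2493754925514974)
(.leaf 145769185780)))
(.node (.node (.node (.leaf 1552517134712868)
(.leaf 231))
(.leaf 8176666))
(.node (.leaf 1746120297677140)
(.leaf 1128))))))
(.node (.node (.node (.node (.node (.node (.leaf 9815112)
(.leaf 1070))
(.leaf 3130270))
(.node (.leaf 3250322802279094)
(.leaf 954414484095056)))
(.node (.node (.node (.leaf 3725177615647458)
(.leaf 916))
(.leaf 7357440))
(.node (.leaf 2713758718395024)
(.leaf 108185993704))))
(.node (.node (.node (.node (.leaf 602568076230798)
(.leaf 83934941867004679642349868102139708517904434780670337291380968758933291464))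
(.leaf 1860401866965132))
(.node (.leaf 1103946454761576)
(.leaf 50198692056)))
(.node (.node (.node (.leaf 338668104712592)
(.leaf 397))
(.leaf 1983634678186606))
(.node (.leaf 1649363279741444)
(.leaf 1154)))))
(.node (.node (.node (.node (.node (.leaf 18252522)
(.leaf 36667294322818509428099659381478879297902))
(.leaf 2194666287792278))
(.node (.leaf 3118328796250782)
(.leaf 28187246732)))
(.node (.node (.node (.leaf 1164170)
(.leaf 224))
(.leaf 2114590))
(.node (.leaf 3048016957407892)
(.leaf 42145136836))))
(.node (.node (.node (.node (.leaf 3276560229663420)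
(.leaf 260))
(.leaf 3848423306691420))
(.node (.leaf 1200736763708012)
(.leaf 69526503678)))
(.node (.node (.leaf 338668104712334)
(.leaf 2502640675783276))
(.node (.leaf 3496473828688610)
(.leaf 828)))))))
(.node (.node (.node (.node (.node (.node (.node (.leaf 6833132)
(.leaf 1068))
(.leaf 18383588))
(.node (.leaf 2819310764556892)
(.leaf 690505921921030)))
(.node (.node (.node (.leaf 18350820)
(.leaf 222))
(.leaf 7521288))
(.node (.leaf 2748894775280064)
(.leaf 106569941370))))
(.node (.node (.node (.node (.leaf 3109560082236062)
(.leaf 133153456270))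
(.leaf 312277141291400))
(.node (.leaf 2546542222967014)
(.leaf 95295848848)))
(.node (.node (.node (.leaf 6210484)
(.leaf 15713168))
(.leaf 6669278))
(.node (.leaf 30787131081006)
(.leaf 850)))))
(.node (.node (.node (.node (.node (.leaf 3153436937585314)
(.leaf 11994040))
(.leaf 2194665213984922))
(.node (.leaf 4342720)
(.leaf 84562297164)))
(.node (.node (.node (.leaf 8307746)
(.leaf 495))
(.leaf 831278841135282))
(.node (.leaf 11338614)
(.leaf 97714701152))))
(.node (.node (.node (.node (.leaf 2344229399101632)
(.leaf 987))
(.leaf 8242206))
(.node (.leaf 1306286659010820)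
(.leaf 14238464)))
(.node (.node (.leaf 2854481715003942)
(.leaf 1447041859584312))
(.node (.leaf 18580196)
(.leaf 1168))))))
(.node (.node (.node (.node (.node (.node (.leaf 5522380)
(.leaf 1062))
(.leaf 338668641386642))
(.node (.leaf 311128621882)
(.leaf 2671630)))
(.node (.node (.node (.leaf 2423471007662728)
(.leaf 37864374978))
(.leaf 3294194))
(.node (.leaf 3392490)
(.leaf 240249996134))))
(.node (.node (.node (.node (.leaf 2278424)
(.leaf 4294525996243964635745420178))
(.leaf 3646084714496732))
(.node (.leaf 1306276992843996)
(.leaf 28187279504)))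
(.node (.node (.node (.leaf 752111321645246)
(.leaf 147))
(.leaf 822480600629500))
(.node (.leaf 655)
(.leaf 1140)))))
(.node (.node (.node (.node (.node (.leaf 7291902)
(.leaf 22120451608148042720370652243724832915676))
(.leaf 3097588))
(.node (.leaf 1306298467647788)
(.leaf 106574725466)))
(.node (.node (.node (.leaf 3505262942978786)
(.leaf 717))
(.leaf 2291478072426832))
(.node (.leaf 1885078)
(.leaf 896))))
(.node (.node (.node (.node (.leaf 1790101842493742)
(.leaf 925))
(.leaf 298780033764))
(.node (.leaf 310055043890)
(.leaf 118387097962)))
(.node (.node (.leaf 47788786683)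
(.leaf 822483284852926))
(.node (.leaf 3232623248114356)
(.leaf 802))))))))
(.node (.node (.node (.node (.node (.node (.node (.node (.leaf 3558120026342108)
(.leaf 1066))
(.leaf 7390210))
(.node (.leaf 1482231063839048)
(.leaf 2493751704092900)))
(.node (.node (.node (.leaf 963230437736748)
(.leaf 729))
(.leaf 2713709860422122))
(.node (.leaf 11338612)
(.leaf 856))))
(.node (.node (.node (.node (.leaf 307370689310)
(.leaf 18027750988751093593314836975))
(.leaf 8111126))
(.node (.leaf 3821912091984708)
(.leaf 48051503360)))
(.node (.node (.node (.leaf 7422980)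
(.leaf 11862996))
(.leaf 831258980548688))
(.node (.leaf 619)
(.leaf 814)))))
(.node (.node (.node (.node (.node (.leaf 2933575947977362)
(.leaf 2766499250290187963332920222))
(.leaf 18875108))
(.node (.leaf 9651266)
(.leaf 185493848722)))
(.node (.node (.node (.leaf 3294181404574410)
(.leaf 544))
(.leaf 1746041919406160))
(.node (.leaf 2344256240615784)
(.leaf 159191679392))))
(.node (.node (.node (.node (.leaf 3091933001515672)
(.leaf 250184171780))
(.leaf 9749574))
(.node (.leaf 2245658)
(.leaf 130734670222)))
(.node (.node (.node (.leaf 35)
(.leaf 560))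
(.leaf 224302788739088))
(.node (.leaf 708088443666448)
(.leaf 1150))))))
(.node (.node (.node (.node (.node (.node (.leaf 6865904)
(.leaf 906))
(.leaf 338667030970506))
(.node (.leaf 3892381224403804)
(.leaf 1587791163785748)))
(.node (.node (.node (.leaf 19170020)
(.leaf 1205314135556804))
(.leaf 310591750968))
(.node (.leaf 971990024651158)
(.leaf 50736021762))))
(.node (.node (.node (.node (.leaf 3619732940686040)
(.leaf 9470998))
(.leaf 1895588922425606))
(.node (.leaf 3390919101907662)
(.leaf 14238470)))
(.node (.node (.node (.leaf 8569748)
(.leaf 421))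
(.leaf 10208334))
(.node (.leaf 2141955222077844)
(.leaf 1146)))))
(.node (.node (.node (.node (.node (.leaf 2529028954849906)
(.leaf 1573910))
(.leaf 298243162852))
(.node (.leaf 18219856)
(.leaf 165628920238)))
(.node (.node (.node (.leaf 2863278344897064)
(.leaf 295))
(.leaf 3672464940958428))
(.node (.leaf 3821912091984684)
(.leaf 109525238624))))
(.node (.node (.node (.node (.leaf 341335564148088433757172978238482)
(.leaf 982))
(.leaf 3452485311169234))
(.node (.leaf 18252538)
(.leaf 39461339358)))
(.node (.node (.leaf 320417162679238473039572667450254)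
(.leaf 2608196475159148))
(.node (.leaf 2493754926989534)
(.leaf 810)))))))
(.node (.node (.node (.node (.node (.node (.node (.leaf 2080402440520324)
(.leaf 8307286))
(.leaf 5751746))
(.node (.leaf 866455162716312)
(.leaf 1702139832566284)))
(.node (.node (.node (.leaf 303075394294)
(.leaf 909))
(.leaf 657))
(.node (.leaf 2370690154300024)
(.leaf 737))))
(.node (.node (.node (.node (.leaf 2300244638859454)
(.leaf 22299514415913087353809241987269930952740317352520410081804621))
(.leaf 3769196732809956))
(.node (.leaf 2485027548627348)
(.leaf 10159177)))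
(.node (.node (.node (.leaf 345174)
(.leaf 16351673))
(.leaf 18744036))
(.node (.leaf 2704913767399912)
(.leaf 1124)))))
(.node (.node (.node (.node (.node (.leaf 1746041918881872)
(.leaf 11928468))
(.leaf 4211672))
(.node (.leaf 1578908634546368)
(.leaf 45903528142)))
(.node (.node (.node (.leaf 2968760856904338)
(.leaf 428))
(.leaf 647))
(.node (.leaf 2986424980013714)
(.leaf 95833178542))))
(.node (.node (.node (.node (.leaf 934976)
(.leaf 434))
(.leaf 5456848))
(.node (.leaf 338667030970764)
(.leaf 95837241692)))
(.node (.node (.leaf 3359726)
(.leaf 343236072836935265202289046406128))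
(.node (.leaf 1200736763740780)
(.leaf 816))))))
(.node (.node (.node (.node (.node (.node (.leaf 54767715311)
(.leaf 1056))
(.leaf 2537825047904876))
(.node (.leaf 2537825043481196)
(.leaf 2493828478370284)))
(.node (.node (.node (.leaf 8438680)
(.leaf 215))
(.leaf 6931362))
(.node (.leaf 2256282962395462)
(.leaf 50200232188))))
(.node (.node (.node (.node (.leaf 7259132)
(.leaf 4099163767768022))
(.leaf 699302551781384))
(.node (.leaf 831278841135280)
(.leaf 18667022477400438949564203905)))
(.node (.node (.node (.leaf 3663673679446748)
(.leaf 151))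
(.leaf 329292264438119229773323595203660))
(.node (.leaf 6079418)
(.leaf 1111)))))
(.node (.node (.node (.node (.node (.leaf 35978576923)
(.leaf 3113948))
(.leaf 3575662286504672))
(.node (.leaf 5686228)
(.leaf 95295848852)))
(.node (.node (.node (.leaf 321073771184522)
(.leaf 138))
(.leaf 3153436937585324))
(.node (.leaf 3179929363251886)
(.leaf 784))))
(.node (.node (.node (.node (.leaf 1350223639511042)
(.leaf 357))
(.leaf 313276203848))
(.node (.leaf 3778077109879524)
(.leaf 878)))
(.node (.node (.leaf 303305001634057068403348526384202)
(.leaf 6177718))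
(.node (.leaf 6276018)
(.leaf 780)))))))))
(.node (.node (.node (.node (.node (.node (.node (.node (.node (.leaf 3892381224403808)
(.leaf 106))
(.leaf 305760076568))
(.node (.leaf 2933754)
(.leaf 1570130797232208)))
(.node (.node (.node (.leaf 4539338)
(.leaf 400))
(.leaf 8602514))
(.node (.leaf 857670341460508)
(.leaf 886))))
(.node (.node (.node (.node (.leaf 3821912091984644)
(.leaf 1600939134714112))
(.leaf 171533746078056))
(.node (.leaf 3523552)
(.leaf 28187247016)))
(.node (.node (.node (.leaf 2150773869249168)
(.leaf 699))
(.leaf 2168318810947886))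
(.node (.leaf 18678500)
(.leaf 812)))))
(.node (.node (.node (.node (.node (.leaf 285888861798480)
(.leaf 1058))
(.leaf 831258980581412))
(.node (.leaf 4408260)
(.leaf 106569941364)))
(.node (.node (.node (.leaf 752083405111332)
(.leaf 579))
(.leaf 2311190))
(.node (.leaf 3514089098511064)
(.leaf 88320426296))))
(.node (.node (.node (.node (.leaf 3795632790504164)
(.leaf 67158302235750236242))
(.leaf 2476158982389974))
(.node (.leaf 7029662)
(.leaf 152209965464)))
(.node (.node (.node (.leaf 2731262324179206)
(.leaf 696))
(.leaf 2696117143372262))
(.node (.leaf 1798909744349754)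
(.leaf 1136))))))
(.node (.node (.node (.node (.node (.node (.leaf 787297838989502)
(.leaf 25653471163706130865))
(.leaf 343236072841657919924330936353766))
(.node (.leaf 2458564648829222)
(.leaf 303612363528)))
(.node (.node (.node (.leaf 2203555259482610)
(.leaf 11600840))
(.leaf 6112184))
(.node (.leaf 11338602)
(.leaf 95837241696))))
(.node (.node (.node (.node (.leaf 1852308)
(.leaf 31078081834049995888607460014390413101724920416128371872202876967008193023686630855689149944931298934897))
(.leaf 3804381641736932))
(.node (.leaf 1561327187591204)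
(.leaf 145764925638)))
(.node (.node (.node (.leaf 7455642)
(.leaf 345))
(.leaf 15))
(.node (.leaf 1139162499121452)
(.leaf 1126)))))
(.node (.node (.node (.node (.node (.leaf 9290804)
(.leaf 709308379913886572943181716592394060515386074681029230438023512627))
(.leaf 1895588386996486))
(.node (.leaf 3909961599910756)
(.leaf 95833178540)))
(.node (.node (.node (.leaf 2784089348178370)
(.leaf 408))
(.leaf 708087906762768))
(.node (.leaf 7226362)
(.leaf 103890371084))))
(.node (.node (.node (.node (.leaf 6538152)
(.leaf 360))
(.leaf 3751649641202404))
(.node (.leaf 2748945778016896)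
(.leaf 4964501)))
(.node (.node (.leaf 3654879196971740)
(.leaf 1066046))
(.node (.leaf 2247486869373252)
(.leaf 834)))))))
(.node (.node (.node (.node (.node (.node (.node (.leaf 3848423306691422)
(.leaf 150060220632))
(.leaf 295064769828877350468063009588242))
(.node (.leaf 18449124)
(.leaf 1655854)))
(.node (.node (.node (.leaf 142272562061)
(.leaf 107))
(.leaf 2001226864231026))
(.node (.leaf 2872097521894018)
(.leaf 50737234098))))
(.node (.node (.node (.node (.leaf 3153436937585316)
(.leaf 95846433113))
(.leaf 9389114))
(.node (.leaf 2344275033129324)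
(.leaf 10469589184)))
(.node (.node (.node (.leaf 1790101842559278)
(.leaf 1090))
(.leaf 4375490))
(.node (.leaf 3338209648247492)
(.leaf 1118)))))
(.node (.node (.node (.node (.node (.leaf 224303325642768)
(.leaf 11994036))
(.leaf 3602031776498402))
(.node (.leaf 866466434515476)
(.leaf 20670660750)))
(.node (.node (.node (.leaf 1675751553499472)
(.leaf 578))
(.leaf 224302788804624))
(.node (.leaf 9673835593)
(.leaf 154896548248))))
(.node (.node (.node (.node (.leaf 2379486244569708)
(.leaf 405))
(.leaf 2740149679129214))
(.node (.leaf 2326625398358276)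
(.leaf 20670595284)))
(.node (.node (.leaf 2537734855000290)
(.leaf 6505386))
(.node (.leaf 461820385624208)
(.leaf 804))))))
(.node (.node (.node (.node (.node (.node (.leaf 294683344470148)
(.leaf 158377837244))
(.leaf 301))
(.node (.leaf 1112733957292172)
(.leaf 3478874127074018)))
(.node (.node (.node (.leaf 6734818)
(.leaf 141))
(.leaf 822483821756606))
(.node (.leaf 7324572)
(.leaf 168316682674))))
(.node (.node (.node (.node (.leaf 2124293247434894)
(.leaf 83064400383409228954409342990732062106532983915971176))
(.leaf 1139122236260498))
(.node (.leaf 306833818396)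
(.leaf 79730163852)))
(.node (.node (.node (.leaf 3144660707377824)
(.leaf 154))
(.leaf 19137252))
(.node (.leaf 3821912091984646)
(.leaf 1122)))))
(.node (.node (.node (.node (.node (.leaf 3228578)
(.leaf 175926888238351172354270))
(.leaf 1605368318394866))
(.node (.leaf 2537785321193914)
(.leaf 151674044820)))
(.node (.node (.node (.leaf 3918721188037466)
(.leaf 66))
(.leaf 1772519314162152))
(.node (.leaf 2150772795638406)
(.leaf 870))))
(.node (.node (.node (.node (.leaf 2326616807637252)
(.leaf 191))
(.leaf 963229363995188))
(.node (.leaf 869256)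
(.leaf 150064546346)))
(.node (.node (.leaf 752083405078564)
(.leaf 3901164970050400))
(.node (.leaf 2379486246732396)
(.leaf 766))))))))
(.node (.node (.node (.node (.node (.node (.node (.node (.leaf 1895588923932934)
(.leaf 103))
(.leaf 18252540))
(.node (.leaf 328658400450017560039022124647498)
(.leaf 2810500176085540)))
(.node (.node (.node (.leaf 1974838585164396)
(.leaf 262))
(.leaf 1746120297677142))
(.node (.leaf 8536982)
(.leaf 107644961258))))
(.node (.node (.node (.node (.leaf 5620680)
(.leaf 8881172))
(.leaf 180330376560838))
(.node (.leaf 443268)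
(.leaf 102275957212)))
(.node (.node (.node (.leaf 3589084)
(.leaf 11862978))
(.leaf 3742890053599972))
(.node (.leaf 8897586)
(.leaf 782)))))
(.node (.node (.node (.node (.node (.leaf 1200736763773548)
(.leaf 18306538864680567150))
(.leaf 7488518))
(.node (.leaf 1895656032600596)
(.leaf 19596788106)))
(.node (.node (.node (.leaf 4572114)
(.leaf 1050))
(.leaf 1746120297677144))
(.node (.leaf 18252578)
(.leaf 17893260367422466219135714187))))
(.node (.node (.node (.node (.leaf 1948450307342958)
(.leaf 51018006788))
(.leaf 1288685346292272))
(.node (.leaf 1200728173576772)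
(.leaf 133951733914)))
(.node (.node (.node (.leaf 1754924980470244)
(.leaf 0))
(.leaf 1403061936062976))
(.node (.leaf 300390875884)
(.leaf 1144))))))
(.node (.node (.node (.node (.node (.node (.leaf 3821912091984658)
(.leaf 1565755039088899))
(.leaf 3206291336987302))
(.node (.leaf 3927517817832290)
(.leaf 8471590)))
(.node (.node (.node (.leaf 848874248438298)
(.leaf 118649602960))
(.leaf 11338608))
(.node (.leaf 136342931996762)
(.leaf 9306852))))
(.node (.node (.node (.node (.leaf 3522862644593378)
(.leaf 4099075196977450))
(.leaf 18547428))
(.node (.leaf 3487700282606302)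
(.leaf 39998243038)))
(.node (.node (.node (.leaf 1385468671394124)
(.leaf 389))
(.leaf 180329839100266))
(.node (.leaf 1165552927670534)
(.leaf 1142)))))
(.node (.node (.node (.node (.node (.leaf 1869207624646912)
(.leaf 38665634836))
(.leaf 338667030249684))
(.node (.leaf 664145020092914)
(.leaf 40536195570)))
(.node (.node (.node (.leaf 2951240071086738)
(.leaf 305))
(.leaf 18612964))
(.node (.leaf 1016009681404484)
(.leaf 109258228124))))
(.node (.node (.node (.node (.leaf 3030385581949586)
(.leaf 984))
(.leaf 752083405013028))
(.node (.leaf 19104484)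
(.leaf 45903528138)))
(.node (.node (.leaf 4244438)
(.leaf 293163177859849686534319541240850))
(.node (.leaf 3672464940958408)
(.leaf 800)))))))
(.node (.node (.node (.node (.node (.node (.node (.leaf 343868892251734276387279202829230)
(.leaf 1072))
(.leaf 2291478066856318))
(.node (.leaf 3390919101907650)
(.leaf 2924830855168658)))
(.node (.node (.node (.leaf 1983384)
(.leaf 918))
(.leaf 3408579466101460))
(.node (.leaf 2168333843890478)
(.leaf 184424431698))))
(.node (.node (.node (.node (.leaf 3720106)
(.leaf 7064098434551309240174282541608818571713476880396065842281399742284241))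
(.leaf 2555417234014830))
(.node (.leaf 461820385624492)
(.leaf 186026033812)))
(.node (.node (.node (.leaf 3434969355682512)
(.leaf 998))
(.leaf 3687336))
(.node (.leaf 306296783642)
(.leaf 1120)))))
(.node (.node (.node (.node (.node (.leaf 9454652)
(.leaf 1895803406549447))
(.leaf 307907560228))
(.node (.leaf 1763655045185616)
(.leaf 95837110670)))
(.node (.node (.node (.leaf 1197114)
(.leaf 179))
(.leaf 3470085012783842))
(.node (.leaf 2361894061277814)
(.leaf 50198692060))))
(.node (.node (.node (.node (.leaf 11338606)
(.leaf 431))
(.leaf 2731333728010772))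
(.node (.leaf 3566911287853758)
(.leaf 14238478)))
(.node (.node (.leaf 2081824)
(.leaf 672924473786676))
(.node (.leaf 1790027752046674)
(.leaf 798))))))
(.node (.node (.node (.node (.node (.node (.leaf 3215080451179176)
(.leaf 20871315656010924804881875378))
(.leaf 1121552062021812))
(.node (.leaf 7586828)
(.leaf 106569941376)))
(.node (.node (.node (.leaf 1939654750667372)
(.leaf 1047))
(.leaf 1130326143336592))
(.node (.leaf 752110782480574)
(.leaf 145230807402))))
(.node (.node (.node (.node (.leaf 1939647771705762)
(.leaf 4099030355345552))
(.leaf 4441044))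
(.node (.leaf 300927845102)
(.leaf 14238510)))
(.node (.node (.node (.leaf 6308784)
(.leaf 307))
(.leaf 1895656032698900))
(.node (.leaf 1429451825774924)
(.leaf 1132)))))
(.node (.node (.node (.node (.node (.leaf 10814336)
(.leaf 43747544295809936342186438230420))
(.leaf 1590156))
(.node (.leaf 1262646)
(.leaf 23355212186)))
(.node (.node (.node (.leaf 2344275033129320)
(.leaf 1086))
(.leaf 18842340))
(.node (.leaf 4309950)
(.leaf 772))))
(.node (.node (.node (.node (.leaf 299317002982)
(.leaf 529))
(.leaf 7062516))
(.node (.leaf 3215080451179184)
(.leaf 876)))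
(.node (.node (.leaf 1)
(.leaf 936829810409662))
(.node (.leaf 3426172725822164)
(.leaf 1076)))))))))))

end Pool.Agent.Gab7b_h87.CA2
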